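import Pool.Agent.helper24.VGBasic

/-!
# Filtered Varchenko-Gelfand algebras in characteristic two do not determine the oriented matroid

We exhibit two central arrangements of seven planes in `ℝ³`, with the same underlying matroid,
whose filtered Varchenko-Gelfand algebras are isomorphic over every commutative ring of
characteristic two, but whose oriented matroids are not isomorphic.
-/

set_option autoImplicit false

namespace Pool.Agent.Results.MP_157dc7_co.SameMatroidSeven

open Pool.Agent.helper24.VG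
open Pool.Agent.helper24.VG.CentralArrangement

/-! ### Arrangements in `ℝ³` with integer coefficients -/

/-- The integer dot product. -/
def dot (u v : Fin 3 → ℤ) : ℤ := u 0 * v 0 + u 1 * v 1 + u 2 * v 2

/-- The integer cross product. -/
def cross (u v : Fin 3 → ℤ) : Fin 3 → ℤ :=
  ![u 1 * v 2 - u 2 * v 1, u 2 * v 0 - u 0 * v 2, u 0 * v 1 - u 1 * v 0]

/-- The linear form on `ℝ³` with integer coefficients `v`. -/
noncomputable def intForm (v : Fin 3 → ℤ) : Module.Dual ℝ (Fin 3 → ℝ) :=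
  (v 0 : ℝ) • LinearMap.proj 0 + (v 1 : ℝ) • LinearMap.proj 1 + (v 2 : ℝ) • LinearMap.proj 2

lemma intForm_apply (v : Fin 3 → ℤ) (x : Fin 3 → ℝ) :
    intForm v x = v 0 * x 0 + v 1 * x 1 + v 2 * x 2 := by
  simp [intForm]

/-- The real point with integer coordinates `p`. -/
def pt (p : Fin 3 → ℤ) : Fin 3 → ℝ := fun k => (p k : ℝ)

lemma intForm_pt (v p : Fin 3 → ℤ) : intForm v (pt p) = ((dot v p : ℤ) : ℝ) := by
  rw [intForm_apply]
  simp [pt, dot]

/-- Rows which define pairwise different planes. -/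
def GoodRows (M : Fin 7 → Fin 3 → ℤ) : Prop :=
  ∀ i j : Fin 7, i ≠ j → ∃ p q : Fin 7, dot (M i) (cross (M p) (M q)) = 0 ∧
    dot (M j) (cross (M p) (M q)) ≠ 0

instance (M : Fin 7 → Fin 3 → ℤ) : Decidable (GoodRows M) := by
  unfold GoodRows; infer_instance

/-- The arrangement with the given integer rows. -/
noncomputable def ofRows (M : Fin 7 → Fin 3 → ℤ) (h : GoodRows M) : CentralArrangement 3 7 where
  form i := intForm (M i)
  form_ne_zero := by
    intro i h0
    obtain ⟨j, hj⟩ : ∃ j : Fin 7, j ≠ i := exists_ne i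
    obtain ⟨p, q, _, h2⟩ := h j i hj
    apply h2
    have := intForm_pt (M i) (cross (M p) (M q))
    rw [h0] at this
    rw [LinearMap.zero_apply] at this
    exact_mod_cast this.symm
  ker_injective := by
    intro i j hij
    by_contra hne
    obtain ⟨p, q, h1, h2⟩ := h i j hne
    apply h2
    have h3 : pt (cross (M p) (M q)) ∈ LinearMap.ker (intForm (M i)) := by
      rw [LinearMap.mem_ker, intForm_pt, h1]
      simp
    have h4 : pt (cross (M p) (M q)) ∈ LinearMap.ker (intForm (M j)) := by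
      have : LinearMap.ker (intForm (M i)) = LinearMap.ker (intForm (M j)) := hij
      rw [← this]; exact h3
    rw [LinearMap.mem_ker, intForm_pt] at h4
    exact_mod_cast h4

/-- The sign vector of an integer point. -/
def sgnAt (M : Fin 7 → Fin 3 → ℤ) (p : Fin 3 → ℤ) : Fin 7 → Bool := fun i => decide (0 < dot (M i) p)

lemma isTope_of_point {M : Fin 7 → Fin 3 → ℤ} (h : GoodRows M) (p : Fin 3 → ℤ)
    (hp : ∀ i, dot (M i) p ≠ 0) : (ofRows M h).IsTope (sgnAt M p) := by
  have hc : pt p ∈ (ofRows M h).complement := by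
    intro i
    show intForm (M i) (pt p) ≠ 0
    rw [intForm_pt]
    exact_mod_cast hp i
  refine ⟨⟨pt p, hc⟩, ?_⟩
  funext i
  show decide (0 < intForm (M i) (pt p)) = decide (0 < dot (M i) p)
  rw [intForm_pt]
  simp

/-- A sign vector conforms to the linear relation `c`. -/
def Conf (c : Fin 7 → ℤ) (s : Fin 7 → Bool) : Prop := ∀ i, c i = 0 ∨ s i = decide (0 < c i)

instance (c : Fin 7 → ℤ) (s : Fin 7 → Bool) : Decidable (Conf c s) := by
  unfold Conf; infer_instance

/-- `c` is a nontrivial linear relation between the rows of `M`. -/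
def IsRel (M : Fin 7 → Fin 3 → ℤ) (c : Fin 7 → ℤ) : Prop :=
  (∀ k : Fin 3, ∑ i, c i * M i k = 0) ∧ ∃ i, c i ≠ 0

instance (M : Fin 7 → Fin 3 → ℤ) (c : Fin 7 → ℤ) : Decidable (IsRel M c) := by
  unfold IsRel; infer_instance

lemma not_isTope_of_conf {M : Fin 7 → Fin 3 → ℤ} (h : GoodRows M) {c : Fin 7 → ℤ}
    (hc : IsRel M c) {s : Fin 7 → Bool} (hs : Conf c s) : ¬ (ofRows M h).IsTope s := by
  rintro ⟨x, rfl⟩
  obtain ⟨hrel, i₀, hi₀⟩ := hc
  have hform : ∀ i, (ofRows M h).form i x = intForm (M i) x := fun i => rfl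
  have hsum : ∑ i, (c i : ℝ) * (ofRows M h).form i x = 0 := by
    have h0 := hrel 0
    have h1 := hrel 1
    have h2 := hrel 2
    have e0 : ∑ i, (c i : ℝ) * (M i 0 : ℝ) = 0 := by exact_mod_cast h0
    have e1 : ∑ i, (c i : ℝ) * (M i 1 : ℝ) = 0 := by exact_mod_cast h1
    have e2 : ∑ i, (c i : ℝ) * (M i 2 : ℝ) = 0 := by exact_mod_cast h2
    have : ∑ i, (c i : ℝ) * (ofRows M h).form i x =
        (∑ i, (c i : ℝ) * (M i 0 : ℝ)) * x.1 0 + (∑ i, (c i : ℝ) * (M i 1 : ℝ)) * x.1 1 +
        (∑ i, (c i : ℝ) * (M i 2 : ℝ)) * x.1 2 := by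
      rw [Finset.sum_mul, Finset.sum_mul, Finset.sum_mul, ← Finset.sum_add_distrib,
        ← Finset.sum_add_distrib]
      apply Finset.sum_congr rfl
      intro i _
      rw [hform, intForm_apply]
      ring
    rw [this, e0, e1, e2]
    ring
  have hpos : ∀ i, c i ≠ 0 → 0 < (c i : ℝ) * (ofRows M h).form i x := by
    intro i hi
    have hne := x.2 i
    rcases hs i with h0 | h0
    · exact absurd h0 hi
    · have h0' : decide (0 < (ofRows M h).form i x) = decide (0 < c i) := h0
      rcases lt_or_gt_of_ne hi with hlt | hgt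
      · have : ¬ (0 < c i) := by omega
        rw [decide_eq_false this] at h0'
        have h1 : ¬ (0 < (ofRows M h).form i x) := by simpa using h0'
        have h2 : (ofRows M h).form i x < 0 := lt_of_le_of_ne (not_lt.1 h1) hne
        have h3 : (c i : ℝ) < 0 := by exact_mod_cast hlt
        exact mul_pos_of_neg_of_neg h3 h2
      · rw [decide_eq_true hgt] at h0'
        have h1 : 0 < (ofRows M h).form i x := by simpa using h0'
        have h3 : 0 < (c i : ℝ) := by exact_mod_cast hgt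
        exact mul_pos h3 h1
  have hnn : ∀ i ∈ Finset.univ, 0 ≤ (c i : ℝ) * (ofRows M h).form i x := by
    intro i _
    by_cases hi : c i = 0
    · rw [hi]; simp
    · exact (hpos i hi).le
  have := (Finset.sum_eq_zero_iff_of_nonneg hnn).1 hsum i₀ (Finset.mem_univ _)
  have h4 := hpos i₀ hi₀
  rw [this] at h4
  exact lt_irrefl _ h4

/-! ### The two arrangements -/

/-- `x, y, z, x - z, y - z, x + y + 2z, x + 3y + z`. -/
def rowsA : Fin 7 → Fin 3 → ℤ :=
  ![![1, 0, 0], ![0, 1, 0], ![0, 0, 1], ![1, 0, -1], ![0, 1, -1], ![1, 1, 2], ![1, 3, 1]]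

/-- `x, y, z, x - z, y - z, x + y + 3z, x + 2y + z`. -/
def rowsB : Fin 7 → Fin 3 → ℤ :=
  ![![1, 0, 0], ![0, 1, 0], ![0, 0, 1], ![1, 0, -1], ![0, 1, -1], ![1, 1, 3], ![1, 2, 1]]

lemma goodA : GoodRows rowsA := by decide +kernel

lemma goodB : GoodRows rowsB := by decide +kernel

/-- The first arrangement. -/
noncomputable def arrA : CentralArrangement 3 7 := ofRows rowsA goodA

/-- The second arrangement. -/
noncomputable def arrB : CentralArrangement 3 7 := ofRows rowsB goodB

/-- Integer points in half of the chambers of `arrA`. -/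
def ptsA : List (Fin 3 → ℤ) :=
  [![1, -6, 2], ![1, -2, -1], ![2, -5, 1], ![1, -1, -2], ![1, 1, -5], ![1, -2, 2], ![5, -2, -1],
   ![2, -2, 1], ![102, -23, -34], ![8, -1, -4], ![1, 1, -2], ![1, -1, 3], ![1, 1, 2], ![8, -2, -1],
   ![3, -1, 1], ![3, 1, 2], ![1, 3, 2], ![6, -1, -2], ![1, 2, -1], ![2, 2, 1]]

/-- Integer points in half of the chambers of `arrB`. -/
def ptsB : List (Fin 3 → ℤ) :=
  [![1, -8, 2], ![1, -2, -1], ![2, -6, 1], ![1, -1, -2], ![1, 1, -4], ![1, -2, 2], ![8, -4, -1],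
   ![2, -2, 1], ![148, -55, -37], ![5, -1, -2], ![1, 1, -1], ![1, -1, 2], ![1, 1, 2], ![6, -2, -1],
   ![2, -1, 1], ![3, 1, 2], ![1, 3, 2], ![8, -1, -2], ![2, 2, -1], ![2, 2, 1]]

/-- Linear relations between the forms of `arrA`. -/
def circA : List (Fin 7 → ℤ) :=
  [![-1, 0, 1, 1, 0, 0, 0], ![0, -1, 1, 0, 1, 0, 0], ![1, 1, 2, 0, 0, -1, 0],
   ![0, -1, 0, 0, -1, -1, 1], ![1, 3, 1, 0, 0, 0, -1]]

/-- Linear relations between the forms of `arrB`. -/
def circB : List (Fin 7 → ℤ) :=
  [![-1, 0, 1, 1, 0, 0, 0], ![0, -1, 1, 0, 1, 0, 0], ![1, 1, 3, 0, 0, -1, 0],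
   ![2, 5, 0, 0, 0, 1, -3], ![0, 0, 1, 0, -1, -1, 1]]

/-- Boolean test: `s` is excluded by one of the relations in the list (or its negative). -/
def excl (cs : List (Fin 7 → ℤ)) (s : Fin 7 → Bool) : Prop :=
  ∃ c ∈ cs, Conf c s ∨ Conf (fun i => -c i) s

instance (cs : List (Fin 7 → ℤ)) (s : Fin 7 → Bool) : Decidable (excl cs s) := by
  unfold excl; infer_instance

/-- Boolean test: `s` is the sign vector of a listed point (or of its negative). -/
def attained (M : Fin 7 → Fin 3 → ℤ) (ps : List (Fin 3 → ℤ)) (s : Fin 7 → Bool) : Prop :=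
  ∃ p ∈ ps, s = sgnAt M p ∨ s = sgnAt M (fun k => -p k)

instance (M : Fin 7 → Fin 3 → ℤ) (ps : List (Fin 3 → ℤ)) (s : Fin 7 → Bool) :
    Decidable (attained M ps s) := by
  unfold attained; infer_instance

lemma relA : ∀ c ∈ circA, IsRel rowsA c := by decide +kernel
lemma relB : ∀ c ∈ circB, IsRel rowsB c := by decide +kernel
lemma nzA : ∀ p ∈ ptsA, ∀ i, dot (rowsA i) p ≠ 0 := by decide +kernel
lemma nzB : ∀ p ∈ ptsB, ∀ i, dot (rowsB i) p ≠ 0 := by decide +kernel

lemma exA : ∀ s : Fin 7 → Bool, ¬ excl circA s → attained rowsA ptsA s := by decide +kernel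
lemma exB : ∀ s : Fin 7 → Bool, ¬ excl circB s → attained rowsB ptsB s := by decide +kernel

lemma neg_intForm {M : Fin 7 → Fin 3 → ℤ} (p : Fin 3 → ℤ) (i : Fin 7) :
    dot (M i) (fun k => -p k) = - dot (M i) p := by
  unfold dot; ring

lemma isRel_neg {M : Fin 7 → Fin 3 → ℤ} {c : Fin 7 → ℤ} (hc : IsRel M c) :
    IsRel M (fun i => -c i) := by
  obtain ⟨h1, i, hi⟩ := hc
  refine ⟨?_, i, neg_ne_zero.2 hi⟩
  intro k
  have := h1 k
  simp only [neg_mul, Finset.sum_neg_distrib, this, neg_zero]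

/-- The topes are exactly the sign vectors not excluded by the relations. -/
lemma isTope_iff {M : Fin 7 → Fin 3 → ℤ} (h : GoodRows M) {cs : List (Fin 7 → ℤ)}
    {ps : List (Fin 3 → ℤ)} (hcs : ∀ c ∈ cs, IsRel M c) (hps : ∀ p ∈ ps, ∀ i, dot (M i) p ≠ 0)
    (hex : ∀ s : Fin 7 → Bool, ¬ excl cs s → attained M ps s) (s : Fin 7 → Bool) :
    (ofRows M h).IsTope s ↔ ¬ excl cs s := by
  constructor
  · rintro hs ⟨c, hc, hconf | hconf⟩
    · exact not_isTope_of_conf h (hcs c hc) hconf hs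
    · exact not_isTope_of_conf h (isRel_neg (hcs c hc)) hconf hs
  · intro hs
    obtain ⟨p, hp, rfl | rfl⟩ := hex s hs
    · exact isTope_of_point h p (hps p hp)
    · refine isTope_of_point h _ (fun i => ?_)
      rw [neg_intForm]
      exact neg_ne_zero.2 (hps p hp i)

lemma isTopeA_iff (s : Fin 7 → Bool) : arrA.IsTope s ↔ ¬ excl circA s :=
  isTope_iff goodA relA nzA exA s

lemma isTopeB_iff (s : Fin 7 → Bool) : arrB.IsTope s ↔ ¬ excl circB s :=
  isTope_iff goodB relB nzB exB s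

/-! ### The filtered isomorphism -/

/-- Index lists of the affine involution `L` of `𝔽₂⁷`. -/
def idx : Fin 7 → List (Fin 7) := ![[0, 1, 2], [2], [1], [1, 2, 3], [4], [6], [5]]

/-- Constants of the affine involution `L` of `𝔽₂⁷`. -/
def cst : Fin 7 → Bool := ![false, false, false, false, true, false, false]

/-- The affine involution `L` of `𝔽₂⁷` which exchanges the topes of `arrA` and of `arrB`. -/
def L (s : Fin 7 → Bool) : Fin 7 → Bool := fun i => (idx i).foldr (fun j b => xor (s j) b) (cst i)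

lemma L_L : ∀ s : Fin 7 → Bool, L (L s) = s := by decide +kernel

lemma L_AB : ∀ s : Fin 7 → Bool, ¬ excl circA s → ¬ excl circB (L s) := by decide +kernel

lemma L_BA : ∀ s : Fin 7 → Bool, ¬ excl circB s → ¬ excl circA (L s) := by decide +kernel

lemma isTope_L_AB {s : Fin 7 → Bool} (hs : arrA.IsTope s) : arrB.IsTope (L s) := by
  rw [isTopeA_iff] at hs
  rw [isTopeB_iff]
  exact L_AB s hs

lemma isTope_L_BA {s : Fin 7 → Bool} (hs : arrB.IsTope s) : arrA.IsTope (L s) := by
  rw [isTopeB_iff] at hs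
  rw [isTopeA_iff]
  exact L_BA s hs

/-- The bijection between the chambers. -/
noncomputable def chamberEquiv : arrA.Chamber ≃ arrB.Chamber where
  toFun C := Classical.choose (arrB.exists_chamber (isTope_L_AB (arrA.isTope_signMap C)))
  invFun C := Classical.choose (arrA.exists_chamber (isTope_L_BA (arrB.isTope_signMap C)))
  left_inv C := by
    apply arrA.signMap_injective
    rw [Classical.choose_spec (arrA.exists_chamber (isTope_L_BA (arrB.isTope_signMap _))),
      Classical.choose_spec (arrB.exists_chamber (isTope_L_AB (arrA.isTope_signMap C))), L_L]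
  right_inv C := by
    apply arrB.signMap_injective
    rw [Classical.choose_spec (arrB.exists_chamber (isTope_L_AB (arrA.isTope_signMap _))),
      Classical.choose_spec (arrA.exists_chamber (isTope_L_BA (arrB.isTope_signMap C))), L_L]

lemma signMap_chamberEquiv (C : arrA.Chamber) :
    arrB.signMap (chamberEquiv C) = L (arrA.signMap C) :=
  Classical.choose_spec (arrB.exists_chamber (isTope_L_AB (arrA.isTope_signMap C)))

lemma signMap_chamberEquiv_symm (C : arrB.Chamber) :
    arrA.signMap (chamberEquiv.symm C) = L (arrB.signMap C) :=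
  Classical.choose_spec (arrA.exists_chamber (isTope_L_BA (arrB.isTope_signMap C)))

theorem filteredVGIso_AB (R : Type*) [CommRing R] [CharP R 2] : FilteredVGIso R arrA arrB := by
  apply filteredVGIso_of_affine arrA arrB chamberEquiv
  · intro i
    refine ⟨idx i, cst i, fun C => ?_⟩
    rw [signMap_chamberEquiv_symm]
    rfl
  · intro j
    refine ⟨idx j, cst j, fun C => ?_⟩
    rw [signMap_chamberEquiv]
    rfl

/-! ### The underlying matroids agree -/

/-- The dependent sets of hyperplanes (for both arrangements). -/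
def Dep (s : Finset (Fin 7)) : Prop := 4 ≤ s.card ∨ {0, 2, 3} ⊆ s ∨ {1, 2, 4} ⊆ s

instance (s : Finset (Fin 7)) : Decidable (Dep s) := by
  unfold Dep; infer_instance

/-- All circuits of `arrA`. -/
def allCircA : List (Fin 7 → ℤ) :=
  [![-1, 0, 1, 1, 0, 0, 0], ![0, -1, 1, 0, 1, 0, 0], ![1, 1, 2, 0, 0, -1, 0],
   ![1, 3, 1, 0, 0, 0, -1], ![1, -1, 0, -1, 1, 0, 0], ![-3, -1, 0, 2, 0, 1, 0],
   ![-2, -3, 0, 1, 0, 0, 1], ![-1, -3, 0, 0, 2, 1, 0], ![-1, -4, 0, 0, 1, 0, 1],
   ![1, 5, 0, 0, 0, 1, -2], ![-1, 0, -3, 0, -1, 1, 0], ![-1, 0, -4, 0, -3, 0, 1],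
   ![2, 0, 5, 0, 0, -3, 1], ![4, 0, 0, -3, 1, -1, 0], ![5, 0, 0, -4, 3, 0, -1],
   ![-7, 0, 0, 5, 0, 3, -1], ![-1, 0, 0, 0, 5, 4, -3], ![0, 1, 3, 1, 0, -1, 0],
   ![0, 3, 2, 1, 0, 0, -1], ![0, 2, -1, 0, 0, 1, -1], ![0, 4, 0, 1, -3, -1, 0],
   ![0, 5, 0, 1, -2, 0, -1], ![0, -7, 0, -1, 0, -2, 3], ![0, -1, 0, 0, -1, -1, 1],
   ![0, 0, 4, 1, 1, -1, 0], ![0, 0, 5, 1, 3, 0, -1], ![0, 0, -7, -2, 0, 3, -1],
   ![0, 0, -1, 0, -2, -1, 1], ![0, 0, 0, -1, 7, 5, -4]]

/-- All circuits of `arrB`. -/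
def allCircB : List (Fin 7 → ℤ) :=
  [![-1, 0, 1, 1, 0, 0, 0], ![0, -1, 1, 0, 1, 0, 0], ![1, 1, 3, 0, 0, -1, 0],
   ![1, 2, 1, 0, 0, 0, -1], ![1, -1, 0, -1, 1, 0, 0], ![-4, -1, 0, 3, 0, 1, 0],
   ![-2, -2, 0, 1, 0, 0, 1], ![-1, -4, 0, 0, 3, 1, 0], ![-1, -3, 0, 0, 1, 0, 1],
   ![2, 5, 0, 0, 0, 1, -3], ![-1, 0, -4, 0, -1, 1, 0], ![-1, 0, -3, 0, -2, 0, 1],
   ![1, 0, 5, 0, 0, -2, 1], ![5, 0, 0, -4, 1, -1, 0], ![4, 0, 0, -3, 2, 0, -1],
   ![-6, 0, 0, 5, 0, 2, -1], ![1, 0, 0, 0, 5, 3, -4], ![0, 1, 4, 1, 0, -1, 0],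
   ![0, 2, 2, 1, 0, 0, -1], ![0, 1, -2, 0, 0, 1, -1], ![0, 5, 0, 1, -4, -1, 0],
   ![0, 4, 0, 1, -2, 0, -1], ![0, -3, 0, -1, 0, -1, 2], ![0, 1, 0, 0, -2, -1, 1],
   ![0, 0, 5, 1, 1, -1, 0], ![0, 0, 4, 1, 2, 0, -1], ![0, 0, -6, -1, 0, 2, -1],
   ![0, 0, 1, 0, -1, -1, 1], ![0, 0, 0, 1, 6, 4, -5]]

lemma allRelA : ∀ c ∈ allCircA, IsRel rowsA c := by decide +kernel
lemma allRelB : ∀ c ∈ allCircB, IsRel rowsB c := by decide +kernel

lemma depA : ∀ s : Finset (Fin 7), Dep s → ∃ c ∈ allCircA, ∀ i, i ∈ s ∨ c i = 0 := by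
  decide +kernel
lemma depB : ∀ s : Finset (Fin 7), Dep s → ∃ c ∈ allCircB, ∀ i, i ∈ s ∨ c i = 0 := by
  decide +kernel

lemma indA : ∀ s : Finset (Fin 7), ¬ Dep s → ∀ p ∈ s, ∃ a b : Fin 7,
    dot (rowsA p) (cross (rowsA a) (rowsA b)) ≠ 0 ∧
      ∀ q ∈ s, q ≠ p → dot (rowsA q) (cross (rowsA a) (rowsA b)) = 0 := by
  decide +kernel
lemma indB : ∀ s : Finset (Fin 7), ¬ Dep s → ∀ p ∈ s, ∃ a b : Fin 7,
    dot (rowsB p) (cross (rowsB a) (rowsB b)) ≠ 0 ∧
      ∀ q ∈ s, q ≠ p → dot (rowsB q) (cross (rowsB a) (rowsB b)) = 0 := by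
  decide +kernel

lemma rel_forms {M : Fin 7 → Fin 3 → ℤ} (h : GoodRows M) {c : Fin 7 → ℤ} (hc : IsRel M c) :
    ∑ i, (c i : ℝ) • (ofRows M h).form i = 0 := by
  obtain ⟨hrel, -⟩ := hc
  have h0 := hrel 0
  have h1 := hrel 1
  have h2 := hrel 2
  have e0 : ∑ i, (c i : ℝ) * (M i 0 : ℝ) = 0 := by exact_mod_cast h0
  have e1 : ∑ i, (c i : ℝ) * (M i 1 : ℝ) = 0 := by exact_mod_cast h1
  have e2 : ∑ i, (c i : ℝ) * (M i 2 : ℝ) = 0 := by exact_mod_cast h2
  apply LinearMap.ext
  intro x
  rw [LinearMap.sum_apply, LinearMap.zero_apply]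
  have : ∑ i, ((c i : ℝ) • (ofRows M h).form i) x =
      (∑ i, (c i : ℝ) * (M i 0 : ℝ)) * x 0 + (∑ i, (c i : ℝ) * (M i 1 : ℝ)) * x 1 +
      (∑ i, (c i : ℝ) * (M i 2 : ℝ)) * x 2 := by
    rw [Finset.sum_mul, Finset.sum_mul, Finset.sum_mul, ← Finset.sum_add_distrib,
      ← Finset.sum_add_distrib]
    apply Finset.sum_congr rfl
    intro i _
    show (c i : ℝ) * intForm (M i) x = _
    rw [intForm_apply]
    ring
  rw [this, e0, e1, e2]
  ring

lemma linearIndepOn_iff_not_dep {M : Fin 7 → Fin 3 → ℤ} (h : GoodRows M)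
    {cs : List (Fin 7 → ℤ)} (hcs : ∀ c ∈ cs, IsRel M c)
    (hdep : ∀ s : Finset (Fin 7), Dep s → ∃ c ∈ cs, ∀ i, i ∈ s ∨ c i = 0)
    (hind : ∀ s : Finset (Fin 7), ¬ Dep s → ∀ p ∈ s, ∃ a b : Fin 7,
      dot (M p) (cross (M a) (M b)) ≠ 0 ∧ ∀ q ∈ s, q ≠ p → dot (M q) (cross (M a) (M b)) = 0)
    (s : Finset (Fin 7)) : LinearIndepOn ℝ (ofRows M h).form (s : Set (Fin 7)) ↔ ¬ Dep s := by
  rw [linearIndepOn_finset_iff]
  constructor
  · intro hli hd
    obtain ⟨c, hc, hsupp⟩ := hdep s hd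
    obtain ⟨i₀, hi₀⟩ := (hcs c hc).2
    have hi₀s : i₀ ∈ s := by
      rcases hsupp i₀ with h' | h'
      · exact h'
      · exact absurd h' hi₀
    have hsum : ∑ i ∈ s, (c i : ℝ) • (ofRows M h).form i = 0 := by
      rw [← rel_forms h (hcs c hc)]
      apply Finset.sum_subset (Finset.subset_univ s)
      intro i _ his
      rcases hsupp i with h' | h'
      · exact absurd h' his
      · rw [h']; simp
    have := hli (fun i => (c i : ℝ)) hsum i₀ hi₀s
    exact hi₀ (by exact_mod_cast this)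
  · intro hd f hf p hp
    obtain ⟨a, b, h1, h2⟩ := hind s hd p hp
    have h3 : (∑ i ∈ s, f i • (ofRows M h).form i) (pt (cross (M a) (M b))) = 0 := by
      rw [hf]; rfl
    rw [LinearMap.sum_apply, Finset.sum_eq_single p] at h3
    · have h4 : f p * intForm (M p) (pt (cross (M a) (M b))) = 0 := h3
      rw [intForm_pt, mul_eq_zero] at h4
      rcases h4 with h4 | h4
      · exact h4
      · exact absurd (by exact_mod_cast h4) h1
    · intro q hq hqp
      show f q * intForm (M q) (pt (cross (M a) (M b))) = 0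
      rw [intForm_pt, h2 q hq hqp]
      simp
    · intro h'; exact absurd hp h'

theorem sameMatroid (s : Set (Fin 7)) :
    LinearIndepOn ℝ arrA.form s ↔ LinearIndepOn ℝ arrB.form s := by
  classical
  have h1 := linearIndepOn_iff_not_dep goodA allRelA depA indA s.toFinset
  have h2 := linearIndepOn_iff_not_dep goodB allRelB depB indB s.toFinset
  rw [Set.coe_toFinset] at h1 h2
  exact h1.trans h2.symm

/-! ### The oriented matroids are not isomorphic -/

/-- `i` and `j` are inseparable in the set `K` of covectors: for one of the two values of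
`σ i * σ j`, every tope with this value remains a covector when the sign of `i`, or of `j`, is
flipped. -/
def Insep {n : ℕ} (K : Set (Fin n → SignType)) (i j : Fin n) : Prop :=
  ∃ δ : SignType, δ ≠ 0 ∧ ∀ σ ∈ K, (∀ k, σ k ≠ 0) → σ i * σ j = δ →
    Function.update σ i (-σ i) ∈ K ∧ Function.update σ j (-σ j) ∈ K

lemma signType_mul_self {a : SignType} (ha : a ≠ 0) : a * a = 1 := by
  revert a; decide

lemma insep_of_iso {n : ℕ} {K K' : Set (Fin n → SignType)} (π : Fin n ≃ Fin n)
    (ε : Fin n → SignType) (hε : ∀ j, ε j ≠ 0)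
    (hK : K' = (fun (σ : Fin n → SignType) (j : Fin n) => ε j * σ (π j)) '' K) {i j : Fin n}
    (hij : Insep K' i j) : Insep K (π i) (π j) := by
  obtain ⟨δ, hδ, h⟩ := hij
  have hmul : ∀ a b : SignType, a ≠ 0 → b ≠ 0 → a * b ≠ 0 := by decide
  refine ⟨ε i * ε j * δ, hmul _ _ (hmul _ _ (hε i) (hε j)) hδ, ?_⟩
  intro σ hσ hne hval
  set τ : Fin n → SignType := fun k => ε k * σ (π k) with hτ
  have hτK : τ ∈ K' := by rw [hK]; exact ⟨σ, hσ, rfl⟩
  have hτne : ∀ k, τ k ≠ 0 := fun k => hmul _ _ (hε k) (hne _)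
  have hval' : τ i * τ j = δ := by
    have e1 : ε i * ε i = 1 := signType_mul_self (hε i)
    have e2 : ε j * ε j = 1 := signType_mul_self (hε j)
    calc τ i * τ j = (ε i * σ (π i)) * (ε j * σ (π j)) := rfl
      _ = (ε i * ε j) * (σ (π i) * σ (π j)) := by
          rw [mul_mul_mul_comm]
      _ = (ε i * ε j) * (ε i * ε j * δ) := by rw [hval]
      _ = (ε i * ε i) * (ε j * ε j) * δ := by
          rw [← mul_assoc, mul_mul_mul_comm]
      _ = δ := by rw [e1, e2, one_mul, one_mul]
  have key : ∀ m : Fin n, Function.update τ m (-τ m) ∈ K' →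
      Function.update σ (π m) (-σ (π m)) ∈ K := by
    intro m hm
    rw [hK] at hm
    obtain ⟨σ', hσ', he⟩ := hm
    have : σ' = Function.update σ (π m) (-σ (π m)) := by
      funext k
      obtain ⟨l, rfl⟩ := π.surjective k
      have h1 := congrFun he l
      have h2 : ε l * ε l = 1 := signType_mul_self (hε l)
      have h3 : σ' (π l) = ε l * (Function.update τ m (-τ m) l) := by
        rw [← h1]
        show σ' (π l) = ε l * (ε l * σ' (π l))
        rw [← mul_assoc, h2, one_mul]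
      rw [h3]
      by_cases hlm : l = m
      · subst hlm
        rw [Function.update_self, Function.update_self, hτ]
        show ε l * (-(ε l * σ (π l))) = -σ (π l)
        rw [mul_neg, ← mul_assoc, h2, one_mul]
      · rw [Function.update_of_ne hlm, Function.update_of_ne (fun h => hlm (π.injective h)), hτ]
        show ε l * (ε l * σ (π l)) = σ (π l)
        rw [← mul_assoc, h2, one_mul]
    rw [← this]
    exact hσ'
  obtain ⟨h1, h2⟩ := h τ hτK hτne hval'
  exact ⟨key i h1, key j h2⟩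

/-- The covector of a Boolean sign vector. -/
def toSign (s : Fin 7 → Bool) : Fin 7 → SignType := fun i => if s i then 1 else -1

lemma toSign_mem_covectors (A : CentralArrangement 3 7) (s : Fin 7 → Bool) :
    toSign s ∈ A.covectors ↔ A.IsTope s := by
  constructor
  · rintro ⟨x, hx⟩
    have hx' : ∀ i, SignType.sign (A.form i x) = toSign s i := fun i => congrFun hx i
    have hc : x ∈ A.complement := by
      intro i h0
      have := hx' i
      rw [h0, sign_zero] at this
      unfold toSign at this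
      split_ifs at this
    refine ⟨⟨x, hc⟩, ?_⟩
    funext i
    have := hx' i
    unfold toSign at this
    by_cases hs : s i = true
    · rw [if_pos hs, sign_eq_one_iff] at this
      rw [hs]
      simpa [bsign] using this
    · rw [if_neg hs, sign_eq_neg_one_iff] at this
      rw [Bool.not_eq_true] at hs
      rw [hs]
      simpa [bsign] using this.le
  · rintro ⟨x, rfl⟩
    refine ⟨x, ?_⟩
    funext i
    show SignType.sign (A.form i x) = toSign (A.bsign x) i
    unfold toSign bsign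
    by_cases h : 0 < A.form i x
    · rw [sign_pos h]; simp [h]
    · have : A.form i x < 0 := lt_of_le_of_ne (not_lt.1 h) (x.2 i)
      rw [sign_neg this]; simp [h]

lemma exists_toSign {σ : Fin 7 → SignType} (hσ : ∀ k, σ k ≠ 0) : ∃ s, toSign s = σ := by
  have key : ∀ a : SignType, a ≠ 0 →
      (if decide (a = 1) = true then (1 : SignType) else -1) = a := by decide
  refine ⟨fun i => decide (σ i = 1), ?_⟩
  funext i
  exact key _ (hσ i)

/-- Flip one entry. -/
def flipB (i : Fin 7) (s : Fin 7 → Bool) : Fin 7 → Bool := fun k => if k = i then !(s k) else s k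

lemma update_toSign (s : Fin 7 → Bool) (i : Fin 7) :
    Function.update (toSign s) i (-toSign s i) = toSign (flipB i s) := by
  funext k
  by_cases hk : k = i
  · subst hk
    rw [Function.update_self]
    unfold toSign flipB
    rw [if_pos rfl]
    cases s k <;> simp
  · rw [Function.update_of_ne hk]
    unfold toSign flipB
    rw [if_neg hk]

/-- Boolean version of inseparability. -/
def InsepB (T : (Fin 7 → Bool) → Prop) (i j : Fin 7) : Prop :=
  ∃ d : Bool, ∀ s, T s → xor (s i) (s j) = d → T (flipB i s) ∧ T (flipB j s)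

lemma toSign_mul (s : Fin 7 → Bool) (i j : Fin 7) (d : Bool) :
    toSign s i * toSign s j = (if d then -1 else 1) ↔ xor (s i) (s j) = d := by
  unfold toSign
  generalize s i = a
  generalize s j = b
  revert a b d
  decide

lemma insep_iff (A : CentralArrangement 3 7) (i j : Fin 7) :
    Insep A.covectors i j ↔ InsepB A.IsTope i j := by
  constructor
  · rintro ⟨δ, hδ, h⟩
    refine ⟨decide (δ = -1), ?_⟩
    intro s hs hx
    have hne : ∀ k, toSign s k ≠ 0 := by
      intro k
      unfold toSign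
      split_ifs <;> simp
    have hval : toSign s i * toSign s j = δ := by
      have key : ∀ δ : SignType, δ ≠ 0 →
          (if decide (δ = -1) = true then (-1 : SignType) else 1) = δ := by decide
      rw [← toSign_mul] at hx
      rw [hx]
      exact key δ hδ
    have := h (toSign s) ((toSign_mem_covectors A s).2 hs) hne hval
    rw [update_toSign, update_toSign, toSign_mem_covectors, toSign_mem_covectors] at this
    exact this
  · rintro ⟨d, h⟩
    refine ⟨if d then -1 else 1, by cases d <;> simp, ?_⟩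
    intro σ hσ hne hval
    obtain ⟨s, rfl⟩ := exists_toSign hne
    rw [toSign_mul] at hval
    rw [update_toSign, update_toSign, toSign_mem_covectors, toSign_mem_covectors]
    exact h s ((toSign_mem_covectors A s).1 hσ) hval

lemma insepB_B : ∀ j : Fin 7, j ≠ 2 → ∃ k : Fin 7, k ≠ j ∧
    ∀ s : Fin 7 → Bool, ¬ excl circB s → xor (s j) (s k) = true →
      ¬ excl circB (flipB j s) ∧ ¬ excl circB (flipB k s) := by
  decide +kernel

lemma insepB_A : ∀ j : Fin 7, j = 1 ∨ j = 4 → ∀ k : Fin 7, k ≠ j → ∀ d : Bool,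
    ∃ s : Fin 7 → Bool, ¬ excl circA s ∧ xor (s j) (s k) = d ∧
      (excl circA (flipB j s) ∨ excl circA (flipB k s)) := by
  decide +kernel

theorem not_omIso : ¬ OMIso arrA arrB := by
  rintro ⟨π, ε, hε, hK⟩
  -- every element other than `π 2` of `arrA` is inseparable from another element
  have h1 : ∀ j : Fin 7, j ≠ 2 → ∃ k, k ≠ j ∧ Insep arrB.covectors j k := by
    intro j hj
    obtain ⟨k, hk, h⟩ := insepB_B j hj
    refine ⟨k, hk, ?_⟩
    rw [insep_iff]
    refine ⟨true, ?_⟩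
    intro s hs hx
    rw [isTopeB_iff] at hs
    rw [isTopeB_iff, isTopeB_iff]
    exact h s hs hx
  have h2 : ∀ j : Fin 7, j = 1 ∨ j = 4 → ∀ k : Fin 7, k ≠ j → ¬ Insep arrA.covectors j k := by
    intro j hj k hk hins
    rw [insep_iff] at hins
    obtain ⟨d, hd⟩ := hins
    obtain ⟨s, hs, hx, hex⟩ := insepB_A j hj k hk d
    have := hd s ((isTopeA_iff s).2 hs) hx
    rw [isTopeA_iff, isTopeA_iff] at this
    rcases hex with h | h
    · exact this.1 h
    · exact this.2 h
  -- one of `1`, `4` is not `π 2`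
  have h3 : ∀ a : Fin 7, (a = 1 ∨ a = 4) → a ≠ π 2 → False := by
    intro a ha hne
    have hj : π.symm a ≠ 2 := fun h => hne (by rw [← h]; simp)
    obtain ⟨k, hk, hins⟩ := h1 (π.symm a) hj
    have h4 := insep_of_iso π ε hε hK hins
    rw [Equiv.apply_symm_apply] at h4
    refine h2 a ha (π k) ?_ h4
    intro h
    apply hk
    rw [← h, Equiv.symm_apply_apply]
  by_cases h : (1 : Fin 7) = π 2
  · exact h3 4 (Or.inr rfl) (by rw [← h]; decide)
  · exact h3 1 (Or.inl rfl) h

/-- **Negative answer to Q1.** There are two central arrangements `A`, `B` of seven planes in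
`ℝ³`, with the same underlying matroid, whose oriented matroids are not isomorphic, although
their filtered Varchenko-Gelfand algebras are isomorphic over every commutative ring (in
particular every integral domain) `R` of characteristic two. -/
theorem result.{u} : ∃ A B : CentralArrangement 3 7,
    (∀ s : Set (Fin 7), LinearIndepOn ℝ A.form s ↔ LinearIndepOn ℝ B.form s) ∧
    (∀ (R : Type u) [CommRing R] [CharP R 2], FilteredVGIso R A B) ∧ ¬ OMIso A B :=
  ⟨arrA, arrB, sameMatroid, fun R _ _ => filteredVGIso_AB R, not_omIso⟩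

end Pool.Agent.Results.MP_157dc7_co.SameMatroidSeven
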